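import Pool.Agent.Helper36_RF.Ex
import Pool.Agent.Helper36_RF.Chr

/-!
# Module ROUND: the round cylinder
-/

noncomputable section

open scoped ContDiff Topology RealInnerProductSpace
set_option maxSynthPendingDepth 3
set_option linter.unusedSectionVars false
open Set

namespace Pool.Agent.RF

namespace H38

variable {ι : Type} [Fintype ι] [DecidableEq ι] {G : E ι → Bil (E ι)} {U : Set (E ι)}

theorem round_metric (hU : IsOpen U) (hUO : U ⊆ Om ι)
    (hG : ∀ x ∈ U, G x = (‖x‖ ^ 2)⁻¹ • del ι) : IsMetricOn G U := by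
  refine ⟨hU, ?_, ?_, ?_⟩
  · have h1 : ContDiffOn ℝ ∞ (fun x : E ι => (‖x‖ ^ 2)⁻¹ • del ι) U := by
      intro x hx
      have hx0 : x ≠ 0 := hUO hx
      have h2 : ContDiffAt ℝ ∞ (fun x : E ι => ‖x‖ ^ 2) x := (contDiff_norm_sq ℝ).contDiffAt
      have h3 : ‖x‖ ^ 2 ≠ 0 := by positivity
      exact ((h2.inv h3).smul contDiffAt_const).contDiffWithinAt
    exact h1.congr hG
  · intro x hx v w
    rw [hG x hx]
    simp only [_root_.smul_apply, del_apply, smul_eq_mul]
    rw [real_inner_comm]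
  · intro x hx v hv
    have hx0 : x ≠ 0 := hUO hx
    rw [hG x hx]
    simp only [_root_.smul_apply, del_apply, smul_eq_mul, real_inner_self_eq_norm_sq]
    positivity

theorem round_hasFDerivAt {x : E ι} (hx0 : x ≠ 0) :
    HasFDerivAt (fun y : E ι => (‖y‖ ^ 2)⁻¹) ((-(2 * (‖x‖ ^ 4)⁻¹)) • innerSL ℝ x) x := by
  have h2 : HasFDerivAt (fun y : E ι => ‖y‖ ^ 2) (2 • innerSL ℝ x) x :=
    (hasStrictFDerivAt_norm_sq x).hasFDerivAt
  have h3 : ‖x‖ ^ 2 ≠ 0 := by positivity
  have h4 := (hasDerivAt_inv h3).comp_hasFDerivAt x h2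
  refine h4.congr_fderiv ?_
  ext z
  simp only [_root_.smul_apply, smul_eq_mul, innerSL_apply_apply, nsmul_eq_mul]
  rw [← pow_mul]
  push_cast
  ring

theorem round_fderiv (hU : IsOpen U) (hUO : U ⊆ Om ι)
    (hG : ∀ x ∈ U, G x = (‖x‖ ^ 2)⁻¹ • del ι) {x : E ι} (hx : x ∈ U) (u v w : E ι) :
    fderiv ℝ G x u v w = -(2 * (‖x‖ ^ 4)⁻¹) * ⟪x, u⟫ * ⟪v, w⟫ := by
  have hx0 : x ≠ 0 := hUO hx
  have h1 : HasFDerivAt (fun y : E ι => (‖y‖ ^ 2)⁻¹ • del ι)
      (((-(2 * (‖x‖ ^ 4)⁻¹)) • innerSL ℝ x).smulRight (del ι)) x :=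
    (round_hasFDerivAt hx0).smul_const (del ι)
  have h2 : G =ᶠ[𝓝 x] fun y : E ι => (‖y‖ ^ 2)⁻¹ • del ι := by
    filter_upwards [hU.mem_nhds hx] with y hy
    exact hG y hy
  rw [(h1.congr_of_eventuallyEq h2).fderiv]
  simp only [ContinuousLinearMap.smulRight_apply, _root_.smul_apply, innerSL_apply_apply,
    smul_eq_mul, del_apply]

theorem round_chris (hU : IsOpen U) (hUO : U ⊆ Om ι)
    (hG : ∀ x ∈ U, G x = (‖x‖ ^ 2)⁻¹ • del ι) {x : E ι} (hx : x ∈ U) (v w : E ι) :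
    chris G x v w = bgchris x v w := by
  have hx0 : x ≠ 0 := hUO hx
  have h3 : ‖x‖ ≠ 0 := norm_ne_zero_iff.2 hx0
  rw [(round_metric hU hUO hG).chris_eq_iff hx]
  intro z
  rw [round_fderiv hU hUO hG hx, round_fderiv hU hUO hG hx, round_fderiv hU hUO hG hx, hG x hx]
  unfold bgchris
  simp only [_root_.smul_apply, del_apply, smul_eq_mul, inner_smul_left, inner_add_left,
    inner_sub_left, map_neg, conj_trivial]
  field_simp
  ring

theorem round_riem (hU : IsOpen U) (hUO : U ⊆ Om ι)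
    (hG : ∀ x ∈ U, G x = (‖x‖ ^ 2)⁻¹ • del ι) {x : E ι} (hx : x ∈ U) {u v w : E ι}
    (hu : ⟪x, u⟫ = 0) (hv : ⟪x, v⟫ = 0) (hw : ⟪x, w⟫ = 0) :
    riem G x u v w = (‖x‖ ^ 2)⁻¹ • (⟪v, w⟫ • u - ⟪u, w⟫ • v) := by
  have hx0 : x ≠ 0 := hUO hx
  have h3 : ‖x‖ ≠ 0 := norm_ne_zero_iff.2 hx0
  have hfd : ∀ a b c : E ι, ⟪x, a⟫ = 0 → fderiv ℝ (fun y => chris G y b c) x a =
      -(‖x‖ ^ 2)⁻¹ • (⟪a, b⟫ • c + ⟪a, c⟫ • b - ⟪b, c⟫ • a) := by
    intro a b c ha
    have e1 : (fun y => chris G y b c) =ᶠ[𝓝 x] fun y =>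
        (-(‖y‖ ^ 2)⁻¹) • (⟪y, b⟫ • c + ⟪y, c⟫ • b - ⟪b, c⟫ • y) := by
      filter_upwards [hU.mem_nhds hx] with y hy
      exact round_chris hU hUO hG hy b c
    rw [e1.fderiv_eq]
    have e2 := (round_hasFDerivAt hx0).neg
    have e3 : HasFDerivAt (fun y : E ι => ⟪y, b⟫ • c + ⟪y, c⟫ • b - ⟪b, c⟫ • y)
        ((innerSL ℝ b).smulRight c + (innerSL ℝ c).smulRight b
          - ⟪b, c⟫ • ContinuousLinearMap.id ℝ (E ι)) x := by
      have f1 : ∀ d : E ι, HasFDerivAt (fun y : E ι => ⟪y, d⟫) (innerSL ℝ d) x := by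
        intro d
        have := (innerSL ℝ d).hasFDerivAt (x := x)
        refine this.congr_of_eventuallyEq (Filter.Eventually.of_forall fun y => ?_)
        exact real_inner_comm _ _
      exact (((f1 b).smul_const c).add ((f1 c).smul_const b)).sub
        ((hasFDerivAt_id x).const_smul ⟪b, c⟫)
    have e4 := (e2.smul e3).fderiv
    change fderiv ℝ (fun y : E ι => -(‖y‖ ^ 2)⁻¹ • (⟪y, b⟫ • c + ⟪y, c⟫ • b - ⟪b, c⟫ • y)) x = _
      at e4
    rw [e4]
    simp only [_root_.add_apply, _root_.sub_apply, _root_.smul_apply, _root_.neg_apply,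
      ContinuousLinearMap.smulRight_apply, innerSL_apply_apply, ContinuousLinearMap.id_apply,
      ha, smul_eq_mul, mul_zero, neg_zero, zero_smul, add_zero, real_inner_comm a b,
      real_inner_comm a c]
    rfl
  have hc1 : ∀ a b : E ι, ⟪x, a⟫ = 0 → ⟪x, b⟫ = 0 →
      chris G x a b = ((‖x‖ ^ 2)⁻¹ * ⟪a, b⟫) • x := by
    intro a b ha hb
    rw [round_chris hU hUO hG hx]
    unfold bgchris
    rw [ha, hb, zero_smul, zero_smul, zero_add, zero_sub, smul_neg, neg_smul, neg_neg, smul_smul]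
  have hc2 : ∀ a : E ι, ⟪x, a⟫ = 0 → chris G x a x = -a := by
    intro a ha
    rw [round_chris hU hUO hG hx]
    unfold bgchris
    rw [ha, real_inner_comm x a, ha, zero_smul, zero_add, sub_zero,
      real_inner_self_eq_norm_sq, smul_smul, neg_mul, inv_mul_cancel₀ (pow_ne_zero 2 h3),
      neg_smul, one_smul]
  unfold riem
  rw [hfd u v w hu, hfd v u w hv, hc1 v w hv hw, hc1 u w hu hw, chris_smul_right,
    chris_smul_right, hc2 u hu, hc2 v hv, real_inner_comm v u]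
  module

end H38

/-- module ROUND -/
theorem roundPos : RoundPosStatement := by
  intro ι κ _ _ _ _ G U hU hUO hG x hx e he ho φ hφ htr hne
  have hx0 : x ≠ 0 := hUO hx
  have h3 : ‖x‖ ≠ 0 := norm_ne_zero_iff.2 hx0
  have key : ∀ i k j l, G x (riem G x (e i) (e k) (e j)) (e l) =
      (if k = j then 1 else 0) * (if i = l then 1 else 0)
        - (if i = j then 1 else 0) * (if k = l then 1 else 0) := by
    intro i k j l
    rw [H38.round_riem hU hUO hG hx (he i) (he k) (he j)]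
    have h4 : ∀ a b, (‖x‖ ^ 2)⁻¹ * ⟪e a, e b⟫ = if a = b then 1 else 0 := by
      intro a b
      have := ho a b
      rw [hG x hx] at this
      simpa using this
    rw [hG x hx, ← h4 k j, ← h4 i l, ← h4 i j, ← h4 k l]
    simp only [_root_.smul_apply, del_apply, smul_eq_mul, inner_smul_left, inner_sub_left,
      conj_trivial]
    ring
  have hsk : skf G x e φ = ∑ i, ∑ j, φ i j ^ 2 := by
    unfold skf
    simp only [key, sub_mul, Finset.sum_sub_distrib]
    have e1 : ∑ i, ∑ j, ∑ k, ∑ l, (if k = j then (1:ℝ) else 0) * (if i = l then 1 else 0) *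
        φ k l * φ i j = ∑ i, ∑ j, φ i j ^ 2 := by
      refine Finset.sum_congr rfl fun i _ => Finset.sum_congr rfl fun j _ => ?_
      simp only [ite_mul, one_mul, zero_mul, mul_ite, mul_one, mul_zero, Finset.sum_ite_eq,
        Finset.mem_univ, if_true, Finset.sum_ite_eq']
      have : φ j i = φ i j := by
        have := congrFun (congrFun hφ i) j
        simpa [Matrix.transpose_apply] using this
      rw [this]
      ring
    have e2 : ∑ i, ∑ j, ∑ k, ∑ l, (if i = j then (1:ℝ) else 0) * (if k = l then 1 else 0) *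
        φ k l * φ i j = φ.trace ^ 2 := by
      simp only [ite_mul, one_mul, zero_mul, mul_ite, mul_one, mul_zero, Finset.sum_ite_eq,
        Finset.mem_univ, if_true, Finset.sum_const_zero]
      unfold Matrix.trace
      simp only [Matrix.diag_apply, pow_two, Finset.sum_mul_sum]
      refine Finset.sum_congr rfl fun i _ => ?_
      rw [Finset.sum_comm]
      refine Finset.sum_congr rfl fun k _ => ?_
      simp only [Finset.sum_ite_eq, Finset.mem_univ, if_true]
      ring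
    rw [e1, e2, htr]
    ring
  rw [hsk]
  obtain ⟨i, j, hij⟩ : ∃ i j, φ i j ≠ 0 := by
    by_contra hcon
    push Not at hcon
    exact hne (Matrix.ext hcon)
  refine Finset.sum_pos' (fun a _ => Finset.sum_nonneg fun b _ => sq_nonneg _)
    ⟨i, Finset.mem_univ i, ?_⟩
  exact Finset.sum_pos' (fun b _ => sq_nonneg _) ⟨j, Finset.mem_univ j, by positivity⟩

end Pool.Agent.RF
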