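import Pool.Agent.Helper38_RF.Reg1

/-!
# Module REG: vectors smooth under rotations are classically smooth
-/

noncomputable section

open scoped ContDiff Topology RealInnerProductSpace
set_option maxSynthPendingDepth 3
set_option linter.unusedSectionVars false
open Set

namespace Pool.Agent.RF

namespace H38

variable {ι : Type} [Fintype ι] [DecidableEq ι]

theorem TT_apply (R : RotSys C(Sph ι, Bil (E ι)) (Gam ι) (ι × ι)) (hR : IsRotSys R)
    (hrot : ∀ (J : Gam ι) (s : ℝ) (x : E ι), ‖rot J.1 s x‖ = ‖x‖)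
    (m : ℕ) (J : Fin m → Gam ι) (s : Fin m → ℝ) (f : C(Sph ι, Bil (E ι))) (x y : Sph ι)
    (hxy : (y : E ι) = rho m (fun j => (J j).1) s x) :
    TT R m J s f x = (f y).bilinearComp (rho m (fun j => (J j).1) s)
      (rho m (fun j => (J j).1) s) := by
  induction m generalizing x with
  | zero =>
    have h : y = x := Subtype.ext hxy
    rw [h]
    rfl
  | succ m ih =>
    let y' : Sph ι := ⟨rot (J 0).1 (s 0) x, by
      rw [mem_sphere_zero_iff_norm, hrot]; exact norm_eq_of_mem_sphere x⟩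
    change (R.T (J 0) (s 0) (TT R m (fun i => J i.succ) (fun i => s i.succ) f)) x = _
    rw [hR.T_apply (J 0) (s 0) _ x y' rfl, ih (fun i => J i.succ) (fun i => s i.succ) y' hxy]
    rfl

/-- pointwise application on continuous functions -/
def appC (K Y Z : Type) [TopologicalSpace K] [CompactSpace K] [NormedAddCommGroup Y]
    [NormedSpace ℝ Y] [NormedAddCommGroup Z] [NormedSpace ℝ Z] :
    (Y →L[ℝ] Z) →L[ℝ] C(K, Y) →L[ℝ] C(K, Z) :=
  LinearMap.mkContinuous₂
    (LinearMap.mk₂ ℝ (fun (L : Y →L[ℝ] Z) (f : C(K, Y)) =>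
      (⟨fun x => L (f x), L.continuous.comp f.continuous⟩ : C(K, Z)))
      (fun _ _ _ => ContinuousMap.ext fun _ => rfl)
      (fun _ _ _ => ContinuousMap.ext fun _ => rfl)
      (fun L _ _ => ContinuousMap.ext fun _ => L.map_add _ _)
      (fun c L _ => ContinuousMap.ext fun _ => L.map_smul c _)) 1 (by
    intro L f
    rw [one_mul, ContinuousMap.norm_le _ (by positivity)]
    intro x
    exact (L.le_opNorm _).trans (mul_le_mul_of_nonneg_left (f.norm_coe_le_norm x)
      (norm_nonneg _)))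

theorem appC_apply {K Y Z : Type} [TopologicalSpace K] [CompactSpace K] [NormedAddCommGroup Y]
    [NormedSpace ℝ Y] [NormedAddCommGroup Z] [NormedSpace ℝ Z] (L : Y →L[ℝ] Z) (f : C(K, Y))
    (x : K) : appC K Y Z L f x = L (f x) := rfl

/-- `b ↦ b(A ·, A ·)` -/
def cj (A : E ι →L[ℝ] E ι) : Bil (E ι) →L[ℝ] Bil (E ι) :=
  (ContinuousLinearMap.compL ℝ (E ι) (E ι →L[ℝ] ℝ) (E ι →L[ℝ] ℝ)
    ((ContinuousLinearMap.compL ℝ (E ι) (E ι) ℝ).flip A)).comp
    ((ContinuousLinearMap.compL ℝ (E ι) (E ι) (E ι →L[ℝ] ℝ)).flip A)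

theorem cj_apply (A : E ι →L[ℝ] E ι) (b : Bil (E ι)) (v w : E ι) :
    cj A b v w = b (A v) (A w) := rfl

theorem contDiff_cj : ContDiff ℝ ∞ (cj : (E ι →L[ℝ] E ι) → _) := by
  have h1 : ContDiff ℝ ∞ fun A : E ι →L[ℝ] E ι =>
      ContinuousLinearMap.compL ℝ (E ι) (E ι →L[ℝ] ℝ) (E ι →L[ℝ] ℝ)
        ((ContinuousLinearMap.compL ℝ (E ι) (E ι) ℝ).flip A) :=
    (ContinuousLinearMap.contDiff _).comp (ContinuousLinearMap.contDiff _)
  have h2 : ContDiff ℝ ∞ fun A : E ι →L[ℝ] E ι =>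
      (ContinuousLinearMap.compL ℝ (E ι) (E ι) (E ι →L[ℝ] ℝ)).flip A :=
    ContinuousLinearMap.contDiff _
  exact h1.clm_comp h2

/-- evaluation at a point of the sphere -/
def evS (x₀ : Sph ι) : FT ι (Bil (E ι)) →L[ℝ] C(Icc (0:ℝ) 1, Bil (E ι)) :=
  LinearMap.mkContinuous
    { toFun := fun p => ⟨fun t => p (t, x₀), p.continuous.comp (by fun_prop)⟩
      map_add' := fun _ _ => rfl
      map_smul' := fun _ _ => rfl } 1 (by
    intro p
    rw [one_mul, ContinuousMap.norm_le _ (norm_nonneg _)]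
    intro t
    exact p.norm_apply_le _)

theorem evS_apply (x₀ : Sph ι) (p : FT ι (Bil (E ι))) (t : Icc (0:ℝ) 1) :
    evS x₀ p t = p (t, x₀) := rfl

/-- the homogeneous extension as a function with values in `C([0,1])` -/
def PP (p : FT ι (Bil (E ι))) (x : E ι) : C(Icc (0:ℝ) 1, Bil (E ι)) :=
  ⟨fun t => hat p t x, by
    unfold hat
    by_cases h : x ≠ 0
    · simp only [dif_pos h]
      have h1 : Continuous fun t : Icc (0:ℝ) 1 =>
          p (projIcc 0 1 zero_le_one (t : ℝ), ⟨‖x‖⁻¹ • x, by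
            simp [norm_smul, inv_mul_cancel₀ (norm_ne_zero_iff.2 h)]⟩) :=
        p.continuous.comp
          ((continuous_projIcc.comp continuous_subtype_val).prodMk continuous_const)
      exact h1.const_smul ((‖x‖ ^ 2)⁻¹)
    · simp only [dif_neg h]
      exact continuous_const⟩

theorem PP_apply (p : FT ι (Bil (E ι))) (x : E ι) (t : Icc (0:ℝ) 1) :
    PP p x t = hat p t x := rfl

theorem contDiffAt_PP (hrot : ∀ (J : Gam ι) (s : ℝ) (x : E ι), ‖rot J.1 s x‖ = ‖x‖)
    (R : RotSys C(Sph ι, Bil (E ι)) (Gam ι) (ι × ι)) (hR : IsRotSys R)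
    (p : FT ι (Bil (E ι)))
    (hp : ∀ (m : ℕ) (J : Fin m → Gam ι), ∃ q : (Fin m → ℝ) → FT ι (Bil (E ι)),
        ContDiffAt ℝ ∞ q 0 ∧ ∀ᶠ s in 𝓝 0, ∀ t, sl (q s) t = TT R m J s (sl p t))
    (x₁ : E ι) (h1 : x₁ ≠ 0) : ContDiffAt ℝ ∞ (PP p) x₁ := by
  have hn : 0 < ‖x₁‖ := norm_pos_iff.2 h1
  set c : ℝ := ‖x₁‖⁻¹ with hc
  have hc0 : 0 < c := inv_pos.2 hn
  let x₀ : Sph ι := ⟨c • x₁, by
    rw [mem_sphere_zero_iff_norm, norm_smul, Real.norm_of_nonneg hc0.le, hc,
      inv_mul_cancel₀ hn.ne']⟩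
  obtain ⟨m, J, σ, hσs, hσ0, hσe⟩ := exists_section hrot (c • x₁)
    (norm_eq_of_mem_sphere x₀)
  obtain ⟨q, hqs, hqe⟩ := hp m J
  let τ : E ι → (Fin m → ℝ) := fun x => σ (c • x)
  have hcs : ContDiff ℝ ∞ (fun x : E ι => c • x) := contDiff_const_smul c
  have hτs : ContDiffAt ℝ ∞ τ x₁ :=
    ContDiffAt.comp (g := σ) x₁ hσs hcs.contDiffAt
  have hτ0 : τ x₁ = 0 := hσ0
  have hsc : ContinuousAt (fun x : E ι => c • x) x₁ := (continuous_const_smul c).continuousAt
  have hτe : ∀ᶠ x in 𝓝 x₁, rho m (fun j => (J j).1) (τ x) (c • x₁) = ‖x‖⁻¹ • x := by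
    filter_upwards [hsc.eventually hσe] with x hx
    change rho m (fun j => (J j).1) (σ (c • x)) (c • x₁) = _
    rw [hx, norm_smul, Real.norm_of_nonneg hc0.le, mul_inv, smul_smul]
    congr 1
    field_simp
  have hqe' : ∀ᶠ x in 𝓝 x₁, ∀ t, sl (q (τ x)) t = TT R m J (τ x) (sl p t) := by
    have h2 : ContinuousAt τ x₁ := hτs.continuousAt
    have h3 : Filter.Tendsto τ (𝓝 x₁) (𝓝 0) := by
      rw [← hτ0]
      exact h2
    exact h3.eventually hqe
  have hne : ∀ᶠ x in 𝓝 x₁, x ≠ 0 := isOpen_ne.mem_nhds h1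
  have hkey : PP p =ᶠ[𝓝 x₁] fun x => (‖x‖ ^ 2)⁻¹ •
      appC (Icc (0:ℝ) 1) (Bil (E ι)) (Bil (E ι)) (cj (rhoI m (fun j => (J j).1) (τ x)))
        (evS x₀ (q (τ x))) := by
    filter_upwards [hτe, hqe', hne] with x h2 h3 h4
    ext1 t
    rw [PP_apply]
    unfold hat
    rw [dif_pos h4, ContinuousMap.smul_apply, appC_apply, evS_apply, projIcc_val]
    congr 1
    let y : Sph ι := ⟨‖x‖⁻¹ • x, by
      simp [norm_smul, inv_mul_cancel₀ (norm_ne_zero_iff.2 h4)]⟩
    have h5 : (q (τ x)) (t, x₀) = (sl p t y).bilinearComp (rho m (fun j => (J j).1) (τ x))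
        (rho m (fun j => (J j).1) (τ x)) := by
      have h6 := congrArg (fun f : C(Sph ι, Bil (E ι)) => f x₀) (h3 t)
      change (q (τ x)) (t, x₀) = _ at h6
      rw [h6]
      exact TT_apply R hR hrot m J (τ x) (sl p t) x₀ y h2.symm
    rw [h5]
    have h7 : ∀ v, rho m (fun j => (J j).1) (τ x) (rhoI m (fun j => (J j).1) (τ x) v) = v := by
      intro v
      have := congrArg (fun L : E ι →L[ℝ] E ι => L v)
        (rho_mul_rhoI m (fun j => (J j).1) (τ x))
      exact this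
    apply ContinuousLinearMap.ext
    intro v
    apply ContinuousLinearMap.ext
    intro w
    rw [cj_apply, ContinuousLinearMap.bilinearComp_apply, h7, h7]
    rfl
  refine ContDiffAt.congr_of_eventuallyEq ?_ hkey
  have s1 : ContDiffAt ℝ ∞ (fun x : E ι => (‖x‖ ^ 2)⁻¹) x₁ := by
    have h2 : ContDiffAt ℝ ∞ (fun x : E ι => ‖x‖ ^ 2) x₁ := (contDiff_norm_sq ℝ).contDiffAt
    exact h2.inv (by positivity)
  have s2 : ContDiffAt ℝ ∞ (fun x => cj (rhoI m (fun j => (J j).1) (τ x))) x₁ :=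
    ContDiffAt.comp (g := fun A : E ι →L[ℝ] E ι => cj A) x₁ contDiff_cj.contDiffAt
      (ContDiffAt.comp (g := fun s => rhoI m (fun j => (J j).1) s) x₁
        (contDiff_rhoI m _).contDiffAt hτs)
  have s3 : ContDiffAt ℝ ∞ (fun x => q (τ x)) x₁ := by
    apply ContDiffAt.comp (g := q) x₁ _ hτs
    rw [hτ0]
    exact hqs
  have s4 : ContDiffAt ℝ ∞ (fun x => evS x₀ (q (τ x))) x₁ :=
    (evS x₀).contDiff.contDiffAt.comp x₁ s3
  have s5 : ContDiffAt ℝ ∞ (fun x => appC (Icc (0:ℝ) 1) (Bil (E ι)) (Bil (E ι))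
      (cj (rhoI m (fun j => (J j).1) (τ x)))) x₁ :=
    (appC (Icc (0:ℝ) 1) (Bil (E ι)) (Bil (E ι))).contDiff.contDiffAt.comp x₁ s2
  exact s1.smul (s5.clm_apply s4)

/-- a multilinear map is controlled by its values on the basis -/
theorem mult_norm_le {F : Type} [NormedAddCommGroup F] [NormedSpace ℝ F] (k : ℕ)
    (M : ContinuousMultilinearMap ℝ (fun _ : Fin k => E ι) F) :
    ‖M‖ ≤ ∑ r : Fin k → ι, ‖M (fun j => eb (r j))‖ := by
  apply ContinuousMultilinearMap.opNorm_le_bound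
  · exact Finset.sum_nonneg fun _ _ => norm_nonneg _
  · intro v
    have h1 : M v = ∑ r : Fin k → ι, (∏ j, v j (r j)) • M (fun j => eb (r j)) := by
      have h2 : v = fun j => ∑ i, v j i • (eb i : E ι) := by
        funext j
        exact (sum_eb (v j)).symm
      conv_lhs => rw [h2]
      rw [M.map_sum]
      refine Finset.sum_congr rfl fun r _ => ?_
      exact M.map_smul_univ (fun j => v j (r j)) (fun j => eb (r j))
    rw [h1, Finset.sum_mul]
    refine (norm_sum_le _ _).trans (Finset.sum_le_sum fun r _ => ?_)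
    rw [norm_smul, mul_comm]
    refine mul_le_mul_of_nonneg_left ?_ (norm_nonneg _)
    rw [norm_prod]
    refine Finset.prod_le_prod (fun j _ => norm_nonneg _) fun j _ => ?_
    exact PiLp.norm_apply_le (v j) (r j)

theorem continuous_eval_mult (k : ℕ) {F : Type} [NormedAddCommGroup F] [NormedSpace ℝ F] :
    Continuous fun a : Icc (0:ℝ) 1 ×
      ContinuousMultilinearMap ℝ (fun _ : Fin k => E ι) C(Icc (0:ℝ) 1, F) =>
      (ContinuousMap.evalCLM ℝ a.1).compContinuousMultilinearMap a.2 := by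
  rw [continuous_iff_continuousAt]
  rintro ⟨t₀, M₀⟩
  rw [ContinuousAt, tendsto_iff_norm_sub_tendsto_zero]
  have hb : ∀ a : Icc (0:ℝ) 1 ×
      ContinuousMultilinearMap ℝ (fun _ : Fin k => E ι) C(Icc (0:ℝ) 1, F),
      ‖(ContinuousMap.evalCLM ℝ a.1).compContinuousMultilinearMap a.2 -
        (ContinuousMap.evalCLM ℝ t₀).compContinuousMultilinearMap M₀‖ ≤
      ‖a.2 - M₀‖ + ∑ r : Fin k → ι,
        ‖M₀ (fun j => eb (r j)) a.1 - M₀ (fun j => eb (r j)) t₀‖ := by
    intro a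
    have e1 : (ContinuousMap.evalCLM ℝ a.1).compContinuousMultilinearMap a.2 -
        (ContinuousMap.evalCLM ℝ t₀).compContinuousMultilinearMap M₀ =
        (ContinuousMap.evalCLM ℝ a.1).compContinuousMultilinearMap (a.2 - M₀) +
        ((ContinuousMap.evalCLM ℝ a.1).compContinuousMultilinearMap M₀ -
        (ContinuousMap.evalCLM ℝ t₀).compContinuousMultilinearMap M₀) := by
      ext v
      simp
    rw [e1]
    refine (norm_add_le _ _).trans (add_le_add ?_ ?_)
    · refine ContinuousMultilinearMap.opNorm_le_bound (norm_nonneg _) fun v => ?_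
      refine le_trans ?_ ((a.2 - M₀).le_opNorm v)
      exact ((a.2 - M₀) v).norm_coe_le_norm a.1
    · exact mult_norm_le k _
  refine squeeze_zero (fun a => norm_nonneg _) hb ?_
  have h1 : Filter.Tendsto (fun a : Icc (0:ℝ) 1 ×
      ContinuousMultilinearMap ℝ (fun _ : Fin k => E ι) C(Icc (0:ℝ) 1, F) =>
      ‖a.2 - M₀‖) (𝓝 (t₀, M₀)) (𝓝 ‖M₀ - M₀‖) :=
    ((continuous_snd.sub continuous_const).norm).tendsto (t₀, M₀)
  have h2 : Filter.Tendsto (fun a : Icc (0:ℝ) 1 ×
      ContinuousMultilinearMap ℝ (fun _ : Fin k => E ι) C(Icc (0:ℝ) 1, F) =>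
      ∑ r : Fin k → ι, ‖M₀ (fun j => eb (r j)) a.1 - M₀ (fun j => eb (r j)) t₀‖)
      (𝓝 (t₀, M₀)) (𝓝 (∑ r : Fin k → ι,
        ‖M₀ (fun j => eb (r j)) t₀ - M₀ (fun j => eb (r j)) t₀‖)) := by
    have h3 : Continuous (fun a : Icc (0:ℝ) 1 ×
      ContinuousMultilinearMap ℝ (fun _ : Fin k => E ι) C(Icc (0:ℝ) 1, F) =>
      ∑ r : Fin k → ι, ‖M₀ (fun j => eb (r j)) a.1 - M₀ (fun j => eb (r j)) t₀‖) := by
      refine continuous_finsetSum _ fun r _ => ?_
      exact (((M₀ (fun j => eb (r j))).continuous.comp continuous_fst).sub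
        continuous_const).norm
    exact h3.tendsto (t₀, M₀)
  simpa using h1.add h2

end H38

/-- module REG -/
theorem reg (hRP : RotPairStatement) : RegStatement := by
  intro ι _ _ hcard R hR p hp
  have hrot := (hRP ι hcard).1
  have hsm : ∀ x ∈ Om ι, ContDiffAt ℝ ∞ (H38.PP p) x := fun x hx =>
    H38.contDiffAt_PP hrot R hR p hp x hx
  have hhat : ∀ (t : ℝ), hat p t = fun x =>
      ContinuousMap.evalCLM ℝ (projIcc 0 1 zero_le_one t) (H38.PP p x) := by
    intro t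
    funext x
    change hat p t x = hat p (projIcc 0 1 zero_le_one t : Icc (0:ℝ) 1) x
    unfold hat
    rw [projIcc_val]
  refine ⟨fun t ht => ?_, fun k => ?_⟩
  · intro x hx
    rw [hhat t]
    exact ((ContinuousLinearMap.contDiff _).contDiffAt.comp x (hsm x hx)).contDiffWithinAt
  · have h1 : ∀ q ∈ Icc (0:ℝ) 1 ×ˢ Om ι, iteratedFDeriv ℝ k (hat p q.1) q.2 =
        (ContinuousMap.evalCLM ℝ (projIcc 0 1 zero_le_one q.1)).compContinuousMultilinearMap
          (iteratedFDeriv ℝ k (H38.PP p) q.2) := by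
      intro q hq
      rw [hhat q.1]
      exact ContinuousLinearMap.iteratedFDeriv_comp_left _ (hsm q.2 hq.2)
        (by exact_mod_cast le_top)
    refine ContinuousOn.congr ?_ h1
    have h2 : ContinuousOn (fun q : ℝ × E ι => ((projIcc 0 1 zero_le_one q.1 : Icc (0:ℝ) 1),
        iteratedFDeriv ℝ k (H38.PP p) q.2)) (Icc (0:ℝ) 1 ×ˢ Om ι) := by
      refine ContinuousOn.prodMk ?_ ?_
      · exact (continuous_projIcc.comp continuous_fst).continuousOn
      · intro q hq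
        have h3 : ContDiffAt ℝ 0 (iteratedFDeriv ℝ k (H38.PP p)) q.2 := by
          apply ContDiffAt.iteratedFDeriv_right (hsm q.2 hq.2)
          rw [zero_add]
          exact_mod_cast le_top
        exact (ContinuousAt.comp (g := iteratedFDeriv ℝ k (H38.PP p)) h3.continuousAt
          continuous_snd.continuousAt).continuousWithinAt
    exact (H38.continuous_eval_mult k).comp_continuousOn h2

end Pool.Agent.RF
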