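import Pool.Agent.Helper36_RF.Man

/-!
# Module SPH: local expressions of fields on the sphere
-/

noncomputable section

open scoped ContDiff Topology RealInnerProductSpace Manifold
set_option maxSynthPendingDepth 3
open Set

namespace Pool.Agent.RF

theorem sph : SphStatement := by
  intro ι _ _ n _ G c hc
  set ψ : E (Fin n) → E ι :=
    fun y : E (Fin n) => ((c.symm y : Metric.sphere (0 : E ι) 1) : E ι) with hψ
  have hsym := contMDiffOn_symm_of_mem_maximalAtlas hc
  have hc1 := contMDiffOn_of_mem_maximalAtlas hc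
  have hcoe : ContMDiff (𝓡 n) 𝓘(ℝ, E ι) ∞ (fun x : Metric.sphere (0 : E ι) 1 => (x : E ι)) :=
    contMDiff_coe_sphere
  have hcomp : ContMDiffOn (𝓡 n) 𝓘(ℝ, E ι) ∞ ψ c.target :=
    hcoe.comp_contMDiffOn hsym
  have hne : (∞ : WithTop ℕ∞) ≠ 0 := by simp
  refine ⟨hcomp.contDiffOn, fun y hy => ?_⟩
  have hmem : c.target ∈ 𝓝 y := c.open_target.mem_nhds hy
  have hsrc : c.symm y ∈ c.source := c.map_target hy
  have hd1 : MDifferentiableAt (𝓡 n) (𝓡 n) c.symm y :=
    ((hsym y hy).contMDiffAt hmem).mdifferentiableAt hne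
  have hd2 : MDifferentiableAt (𝓡 n) 𝓘(ℝ, E ι)
      (fun x : Metric.sphere (0 : E ι) 1 => (x : E ι)) (c.symm y) :=
    hcoe.mdifferentiableAt hne
  have hd3 : MDifferentiableAt (𝓡 n) (𝓡 n) c (c.symm y) :=
    ((hc1 _ hsrc).contMDiffAt (c.open_source.mem_nhds hsrc)).mdifferentiableAt hne
  have hfd : fderiv ℝ ψ y = (mfderiv (𝓡 n) 𝓘(ℝ, E ι)
      (fun x : Metric.sphere (0 : E ι) 1 => (x : E ι)) (c.symm y)).comp
        (mfderiv (𝓡 n) (𝓡 n) c.symm y) := by
    have h1 := mfderiv_comp y hd2 hd1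
    rw [← h1, ← mfderiv_eq_fderiv]
    rfl
  have hinj1 : Function.Injective (mfderiv (𝓡 n) (𝓡 n) c.symm y) := by
    have h2 := mfderiv_comp y hd3 hd1
    have h3 : mfderiv (𝓡 n) (𝓡 n) (c ∘ c.symm) y = ContinuousLinearMap.id ℝ _ := by
      have h4 : (c ∘ c.symm) =ᶠ[𝓝 y] id := by
        filter_upwards [hmem] with z hz
        exact c.right_inv hz
      rw [h4.mfderiv_eq]
      exact mfderiv_id
    rw [h3] at h2
    intro v w hvw
    have h5 := congrArg (fun L => L v) h2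
    have h6 := congrArg (fun L => L w) h2
    simp only [ContinuousLinearMap.comp_apply] at h5 h6
    rw [hvw, ← h6] at h5
    exact h5
  refine ⟨norm_eq_of_mem_sphere _, ?_, ?_⟩
  · rw [hfd]
    exact (mfderiv_coe_sphere_injective (c.symm y)).comp hinj1
  · ext v w
    change (G (c.symm y)) _ _ = (G (ψ y)) (fderiv ℝ ψ y v) (fderiv ℝ ψ y w)
    rw [hfd]
    rfl

end Pool.Agent.RF
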