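import Pool.Agent.Helper36_RF.Rot

/-!
# Module REG, part 1: products of rotations and local sections
-/

noncomputable section

open scoped ContDiff Topology RealInnerProductSpace
set_option maxSynthPendingDepth 3
set_option linter.unusedSectionVars false
open Set

namespace Pool.Agent.RF

namespace H38

variable {ι : Type} [Fintype ι] [DecidableEq ι]

theorem rot_zero (J : E ι →L[ℝ] E ι) : rot J 0 = 1 := by
  unfold rot
  rw [zero_smul, NormedSpace.exp_zero]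

theorem rot_mul_neg (J : E ι →L[ℝ] E ι) (s : ℝ) : rot J s * rot J (-s) = 1 := by
  letI : NormedAlgebra ℚ (E ι →L[ℝ] E ι) := NormedAlgebra.restrictScalars ℚ ℝ _
  unfold rot
  rw [← NormedSpace.exp_add_of_commute]
  · rw [← add_smul, add_neg_cancel, zero_smul, NormedSpace.exp_zero]
  · exact ((Commute.refl J).smul_left s).smul_right (-s)

theorem rot_neg_mul (J : E ι →L[ℝ] E ι) (s : ℝ) : rot J (-s) * rot J s = 1 := by
  have := rot_mul_neg J (-s)
  rwa [neg_neg] at this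

theorem contDiff_rot (J : E ι →L[ℝ] E ι) : ContDiff ℝ ∞ (rot J) := by
  have h : ContDiff ℝ ∞ (NormedSpace.exp : (E ι →L[ℝ] E ι) → (E ι →L[ℝ] E ι)) := by
    rw [contDiff_iff_contDiffAt]
    intro x
    exact (NormedSpace.exp_analytic (𝕂 := ℝ) x).contDiffAt
  exact h.comp (contDiff_id.smul contDiff_const)

theorem hasFDerivAt_rot (J : E ι →L[ℝ] E ι) :
    HasFDerivAt (rot J) ((ContinuousLinearMap.id ℝ ℝ).smulRight J) 0 := by
  have h1 : HasFDerivAt (NormedSpace.exp : (E ι →L[ℝ] E ι) → (E ι →L[ℝ] E ι))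
      (1 : (E ι →L[ℝ] E ι) →L[ℝ] (E ι →L[ℝ] E ι)) ((0 : ℝ) • J) := by
    rw [zero_smul]
    exact hasFDerivAt_exp_zero
  have h2 : HasFDerivAt (fun s : ℝ => s • J) ((ContinuousLinearMap.id ℝ ℝ).smulRight J) 0 :=
    (hasFDerivAt_id (0 : ℝ)).smul_const J
  exact h1.comp (0 : ℝ) h2

/-- product of rotations, the last one is applied last -/
def rho : (m : ℕ) → (Fin m → (E ι →L[ℝ] E ι)) → (Fin m → ℝ) → (E ι →L[ℝ] E ι)
  | 0, _, _ => 1
  | m + 1, J, s => rho m (fun i => J i.succ) (fun i => s i.succ) * rot (J 0) (s 0)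

/-- its inverse -/
def rhoI : (m : ℕ) → (Fin m → (E ι →L[ℝ] E ι)) → (Fin m → ℝ) → (E ι →L[ℝ] E ι)
  | 0, _, _ => 1
  | m + 1, J, s => rot (J 0) (-(s 0)) * rhoI m (fun i => J i.succ) (fun i => s i.succ)

theorem rho_succ (m : ℕ) (J : Fin (m + 1) → (E ι →L[ℝ] E ι)) (s : Fin (m + 1) → ℝ) :
    rho (m + 1) J s = rho m (fun i => J i.succ) (fun i => s i.succ) * rot (J 0) (s 0) := rfl

theorem rhoI_succ (m : ℕ) (J : Fin (m + 1) → (E ι →L[ℝ] E ι)) (s : Fin (m + 1) → ℝ) :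
    rhoI (m + 1) J s =
      rot (J 0) (-(s 0)) * rhoI m (fun i => J i.succ) (fun i => s i.succ) := rfl

theorem rho_mul_rhoI (m : ℕ) (J : Fin m → (E ι →L[ℝ] E ι)) (s : Fin m → ℝ) :
    rho m J s * rhoI m J s = 1 := by
  induction m with
  | zero => exact one_mul 1
  | succ m ih =>
    rw [rho_succ, rhoI_succ, mul_assoc, ← mul_assoc (rot (J 0) (s 0)), rot_mul_neg, one_mul]
    exact ih _ _

theorem rho_zero (m : ℕ) (J : Fin m → (E ι →L[ℝ] E ι)) : rho m J 0 = 1 := by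
  induction m with
  | zero => rfl
  | succ m ih =>
    rw [rho_succ]
    have h : rho m (fun i => J i.succ) (fun i => (0 : Fin (m + 1) → ℝ) i.succ) = 1 := ih _
    rw [h]
    change 1 * rot (J 0) 0 = 1
    rw [rot_zero, one_mul]

theorem contDiff_rho (m : ℕ) (J : Fin m → (E ι →L[ℝ] E ι)) :
    ContDiff ℝ ∞ (fun s : Fin m → ℝ => rho m J s) := by
  induction m with
  | zero => exact contDiff_const
  | succ m ih =>
    have h1 : ContDiff ℝ ∞ (fun s : Fin (m + 1) → ℝ => (fun i : Fin m => s i.succ)) := by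
      rw [contDiff_pi]
      intro i
      exact contDiff_apply ℝ ℝ i.succ
    have h2 := (ih fun i => J i.succ).comp h1
    have h3 : ContDiff ℝ ∞ (fun s : Fin (m + 1) → ℝ => rot (J 0) (s 0)) :=
      (contDiff_rot (J 0)).comp (contDiff_apply ℝ ℝ 0)
    exact h2.mul h3

theorem contDiff_rhoI (m : ℕ) (J : Fin m → (E ι →L[ℝ] E ι)) :
    ContDiff ℝ ∞ (fun s : Fin m → ℝ => rhoI m J s) := by
  induction m with
  | zero => exact contDiff_const
  | succ m ih =>
    have h1 : ContDiff ℝ ∞ (fun s : Fin (m + 1) → ℝ => (fun i : Fin m => s i.succ)) := by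
      rw [contDiff_pi]
      intro i
      exact contDiff_apply ℝ ℝ i.succ
    have h2 := (ih fun i => J i.succ).comp h1
    have h3 : ContDiff ℝ ∞ (fun s : Fin (m + 1) → ℝ => rot (J 0) (-(s 0))) :=
      (contDiff_rot (J 0)).comp (contDiff_apply ℝ ℝ 0).neg
    exact h3.mul h2

/-- the derivative of the product at zero -/
theorem hasFDerivAt_rho (m : ℕ) (J : Fin m → (E ι →L[ℝ] E ι)) :
    ∃ D : (Fin m → ℝ) →L[ℝ] (E ι →L[ℝ] E ι), (∀ d, D d = ∑ j, d j • J j) ∧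
      HasFDerivAt (fun s : Fin m → ℝ => rho m J s) D 0 := by
  induction m with
  | zero => exact ⟨0, fun d => by simp, hasFDerivAt_const _ _⟩
  | succ m ih =>
    obtain ⟨D, hD, hD'⟩ := ih fun i => J i.succ
    let S : (Fin (m + 1) → ℝ) →L[ℝ] (Fin m → ℝ) :=
      ContinuousLinearMap.pi fun i => ContinuousLinearMap.proj i.succ
    have h1 : HasFDerivAt (fun s : Fin (m + 1) → ℝ => (fun i : Fin m => s i.succ)) S 0 :=
      S.hasFDerivAt
    have h2 : HasFDerivAt (fun s : Fin (m + 1) → ℝ =>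
        rho m (fun i => J i.succ) (fun i => s i.succ)) (D.comp S) 0 :=
      HasFDerivAt.comp (g := fun s : Fin m → ℝ => rho m (fun i => J i.succ) s) (0 : Fin (m + 1) → ℝ)
        hD' h1
    have h3 : HasFDerivAt (fun s : Fin (m + 1) → ℝ => rot (J 0) (s 0))
        (((ContinuousLinearMap.id ℝ ℝ).smulRight (J 0)).comp (ContinuousLinearMap.proj 0)) 0 :=
      HasFDerivAt.comp (g := rot (J 0)) (0 : Fin (m + 1) → ℝ) (hasFDerivAt_rot (J 0))
        (ContinuousLinearMap.proj (R := ℝ) (φ := fun _ : Fin (m + 1) => ℝ) 0).hasFDerivAt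
    have h4 := h2.clm_comp h3
    refine ⟨_, ?_, h4⟩
    intro d
    have e1 : rho m (fun i => J i.succ) (fun i => (0 : Fin (m + 1) → ℝ) i.succ) = 1 :=
      rho_zero m _
    have e2 : rot (J 0) ((0 : Fin (m + 1) → ℝ) 0) = 1 := rot_zero _
    rw [Fin.sum_univ_succ, e1, e2]
    ext1 v
    have e3 : D (S d) = ∑ j : Fin m, d j.succ • J j.succ := hD _
    simp only [_root_.add_apply, ContinuousLinearMap.comp_apply,
      ContinuousLinearMap.compL_apply, ContinuousLinearMap.flip_apply,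
      ContinuousLinearMap.smulRight_apply, ContinuousLinearMap.proj_apply,
      ContinuousLinearMap.id_apply, e3, one_apply_eq_self]

/-- the rotation fields used for the local sections -/
def Jx (x₀ : E ι) (i : ι) : E ι →L[ℝ] E ι :=
  (1 / 2 : ℝ) • ((innerSL ℝ x₀).smulRight (eb i) - (innerSL ℝ (eb i)).smulRight x₀)

theorem Jx_apply (x₀ : E ι) (i : ι) (v : E ι) :
    Jx x₀ i v = (1 / 2 : ℝ) • (⟪x₀, v⟫ • eb i - v i • x₀) := by
  have h : ⟪eb i, v⟫ = v i := by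
    unfold eb
    rw [EuclideanSpace.inner_single_left]
    simp
  simp only [Jx, _root_.smul_apply, _root_.sub_apply, ContinuousLinearMap.smulRight_apply,
    innerSL_apply_apply, h]

theorem Jx_skew (x₀ : E ι) (i : ι) (v w : E ι) : ⟪Jx x₀ i v, w⟫ = -⟪v, Jx x₀ i w⟫ := by
  simp only [Jx, _root_.smul_apply, _root_.sub_apply, ContinuousLinearMap.smulRight_apply,
    innerSL_apply_apply, inner_smul_left, inner_smul_right, inner_sub_left, inner_sub_right,
    conj_trivial]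
  rw [real_inner_comm (eb i) v, real_inner_comm x₀ v]
  ring

theorem Jx_norm {x₀ : E ι} (h0 : ‖x₀‖ = 1) (i : ι) : ‖Jx x₀ i‖ ≤ 1 := by
  have h1 : ‖(innerSL ℝ x₀).smulRight (eb i)‖ ≤ 1 := by
    rw [ContinuousLinearMap.norm_smulRight_apply, innerSL_apply_norm, h0]
    simp [eb]
  have h2 : ‖(innerSL ℝ (eb i)).smulRight x₀‖ ≤ 1 := by
    rw [ContinuousLinearMap.norm_smulRight_apply, innerSL_apply_norm, h0]
    simp [eb]
  unfold Jx
  rw [norm_smul]
  have h3 := norm_sub_le ((innerSL ℝ x₀).smulRight (eb i)) ((innerSL ℝ (eb i)).smulRight x₀)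
  rw [Real.norm_of_nonneg (by norm_num)]
  linarith

/-- the rotation fields as admissible ones -/
def JG (x₀ : E ι) (h0 : ‖x₀‖ = 1) (i : ι) : Gam ι :=
  ⟨Jx x₀ i, Jx_skew x₀ i, Jx_norm h0 i⟩

theorem rho_norm (m : ℕ) (J : Fin m → Gam ι)
    (hrot : ∀ (J : Gam ι) (s : ℝ) (x : E ι), ‖rot J.1 s x‖ = ‖x‖) (s : Fin m → ℝ) (x : E ι) :
    ‖rho m (fun j => (J j).1) s x‖ = ‖x‖ := by
  induction m generalizing x with
  | zero => rfl
  | succ m ih =>
    rw [rho_succ]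
    change ‖rho m (fun i => (J i.succ).1) (fun i => s i.succ) (rot (J 0).1 (s 0) x)‖ = ‖x‖
    rw [ih (fun i => J i.succ), hrot]

theorem sum_eb (z : E ι) : ∑ i, z i • (eb i : E ι) = z := by
  have := (EuclideanSpace.basisFun ι ℝ).sum_repr z
  simpa [eb] using this

/-- local sections -/
theorem exists_section (hrot : ∀ (J : Gam ι) (s : ℝ) (x : E ι), ‖rot J.1 s x‖ = ‖x‖)
    (x₀ : E ι) (h0 : ‖x₀‖ = 1) :
    ∃ (m : ℕ) (J : Fin m → Gam ι) (σ : E ι → (Fin m → ℝ)), ContDiffAt ℝ ∞ σ x₀ ∧ σ x₀ = 0 ∧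
      ∀ᶠ x in 𝓝 x₀, rho m (fun j => (J j).1) (σ x) x₀ = ‖x‖⁻¹ • x := by
  let e : Fin (Fintype.card ι) ≃ ι := (Fintype.equivFin ι).symm
  let J : Fin (Fintype.card ι) → Gam ι := fun j => JG x₀ h0 (e j)
  let C : E ι →L[ℝ] (Fin (Fintype.card ι) → ℝ) :=
    ContinuousLinearMap.pi fun j => EuclideanSpace.proj (e j)
  let R : E ι → (E ι →L[ℝ] E ι) := fun z => rho _ (fun j => (J j).1) (C z)
  let Ψ : E ι → E ι := fun z => (1 + ⟪x₀, z⟫) • R z x₀
  obtain ⟨D, hD, hD'⟩ := hasFDerivAt_rho _ (fun j => (J j).1)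
  have hR0 : R 0 = 1 := by
    change rho _ _ (C 0) = 1
    rw [map_zero]
    exact rho_zero _ _
  have hRd : HasFDerivAt R (D.comp C) 0 := by
    have hC : HasFDerivAt (fun z : E ι => C z) C 0 := C.hasFDerivAt
    have hD0 : HasFDerivAt (fun s => rho _ (fun j => (J j).1) s) D (C 0) := by
      rw [map_zero]
      exact hD'
    exact HasFDerivAt.comp (g := fun s => rho _ (fun j => (J j).1) s) (0 : E ι) hD0 hC
  have hRs : ContDiff ℝ ∞ R := (contDiff_rho _ _).comp C.contDiff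
  have hin : ContDiff ℝ ∞ (fun z : E ι => 1 + ⟪x₀, z⟫) :=
    contDiff_const.add (innerSL ℝ x₀).contDiff
  have hΨs : ContDiff ℝ ∞ Ψ := hin.smul (hRs.clm_apply contDiff_const)
  have hΨ0 : Ψ 0 = x₀ := by
    change (1 + ⟪x₀, (0 : E ι)⟫) • R 0 x₀ = x₀
    rw [hR0, inner_zero_right, add_zero, one_smul]
    rfl
  -- the derivative at zero
  let f : E ι →L[ℝ] E ι := (1 / 2 : ℝ) • (ContinuousLinearMap.id ℝ (E ι)
    + (innerSL ℝ x₀).smulRight x₀)
  let g : E ι →L[ℝ] E ι := (2 : ℝ) • ContinuousLinearMap.id ℝ (E ι)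
    - (innerSL ℝ x₀).smulRight x₀
  have hxx : ⟪x₀, x₀⟫ = (1 : ℝ) := by rw [real_inner_self_eq_norm_sq, h0]; norm_num
  have hf : ∀ z, f z = (1 / 2 : ℝ) • (z + ⟪x₀, z⟫ • x₀) := fun z => rfl
  have hg : ∀ z, g z = (2 : ℝ) • z - ⟪x₀, z⟫ • x₀ := fun z => rfl
  have hfg : ∀ z, f (g z) = z := by
    intro z
    rw [hf, hg, inner_sub_right, inner_smul_right, inner_smul_right, hxx]
    module
  have hgf : ∀ z, g (f z) = z := by
    intro z
    rw [hf, hg, inner_smul_right, inner_add_right, inner_smul_right, hxx]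
    module
  let F : E ι ≃L[ℝ] E ι := ContinuousLinearEquiv.equivOfInverse f g hgf hfg
  have hΨd : HasFDerivAt Ψ (F : E ι →L[ℝ] E ι) 0 := by
    have h1 : HasFDerivAt (fun z : E ι => 1 + ⟪x₀, z⟫) (innerSL ℝ x₀) 0 :=
      ((innerSL ℝ x₀).hasFDerivAt (x := (0 : E ι))).const_add 1
    have h2 := hRd.clm_apply (hasFDerivAt_const x₀ (0 : E ι))
    have h3 := h1.smul h2
    refine h3.congr_fderiv ?_
    ext1 z
    have e1 : D (C z) x₀ = (1 / 2 : ℝ) • (z - ⟪x₀, z⟫ • x₀) := by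
      rw [hD]
      have e2 : (∑ j, C z j • (J j).1) x₀ = ∑ j, z (e j) • Jx x₀ (e j) x₀ := by
        rw [sum_apply]
        rfl
      rw [e2, Equiv.sum_comp e (fun i => z i • Jx x₀ i x₀)]
      simp only [Jx_apply, hxx, one_smul]
      have e3 : ∀ i, z i • (1 / 2 : ℝ) • (eb i - x₀ i • x₀) =
          (1 / 2 : ℝ) • (z i • (eb i : E ι)) - ((1 / 2 : ℝ) * (z i * x₀ i)) • x₀ := by
        intro i
        module
      simp only [e3, Finset.sum_sub_distrib, ← Finset.smul_sum, ← Finset.sum_smul,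
        ← Finset.mul_sum, sum_eb]
      have e4 : ∑ i, z i * x₀ i = ⟪x₀, z⟫ := by
        rw [PiLp.inner_apply]
        rfl
      rw [e4]
      module
    change (1 + ⟪x₀, (0 : E ι)⟫) • ((R 0) ((0 : E ι →L[ℝ] E ι) z) + D (C z) x₀)
      + ⟪x₀, z⟫ • (R 0) x₀ = f z
    rw [e1, hR0, inner_zero_right, hf]
    change (1 + (0:ℝ)) • ((0 : E ι) + (1 / 2 : ℝ) • (z - ⟪x₀, z⟫ • x₀)) + ⟪x₀, z⟫ • x₀ = _
    module
  have hne : (∞ : WithTop ℕ∞) ≠ 0 := by simp
  have hcd : ContDiffAt ℝ ∞ Ψ 0 := hΨs.contDiffAt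
  have hstr := hcd.hasStrictFDerivAt' hΨd hne
  let L : E ι → E ι := hcd.localInverse hΨd hne
  have hL0 : L x₀ = 0 := by
    have := hcd.localInverse_apply_image hΨd hne
    rwa [hΨ0] at this
  have hLs : ContDiffAt ℝ ∞ L x₀ := by
    have := hcd.to_localInverse hΨd hne
    rwa [hΨ0] at this
  have hLr : ∀ᶠ x in 𝓝 x₀, Ψ (L x) = x := by
    have := hstr.eventually_right_inverse
    rwa [hΨ0] at this
  refine ⟨_, J, fun x => C (L x), ?_, ?_, ?_⟩
  · exact C.contDiff.contDiffAt.comp x₀ hLs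
  · change C (L x₀) = 0
    rw [hL0, map_zero]
  · have hpos : ∀ᶠ x in 𝓝 x₀, 0 < 1 + ⟪x₀, L x⟫ := by
      have h1 : ContinuousAt (fun x => 1 + ⟪x₀, L x⟫) x₀ :=
        ContinuousAt.comp (g := fun z : E ι => 1 + ⟪x₀, z⟫) hin.continuous.continuousAt
          hLs.continuousAt
      have h2 : (0 : ℝ) < 1 + ⟪x₀, L x₀⟫ := by
        rw [hL0, inner_zero_right]
        norm_num
      exact h1.eventually (lt_mem_nhds h2)
    filter_upwards [hLr, hpos] with x h3 h4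
    have h5 : (1 + ⟪x₀, L x⟫) • R (L x) x₀ = x := h3
    have h6 : ‖R (L x) x₀‖ = 1 := by
      change ‖rho _ (fun j => (J j).1) (C (L x)) x₀‖ = 1
      rw [rho_norm _ J hrot, h0]
    have h7 : ‖x‖ = 1 + ⟪x₀, L x⟫ := by
      rw [← h5, norm_smul, h6, mul_one, Real.norm_of_nonneg h4.le, h5]
    change R (L x) x₀ = ‖x‖⁻¹ • x
    have h8 : R (L x) x₀ = (1 + ⟪x₀, L x⟫)⁻¹ • ((1 + ⟪x₀, L x⟫) • R (L x) x₀) := by
      rw [smul_smul, inv_mul_cancel₀ h4.ne', one_smul]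
    rw [h7, h8, h5]

end H38

end Pool.Agent.RF
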